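import Pool.Agent.H221.TW.Cen

/-!
Minkowski's theorem in every dimension, by Helly's theorem.
-/

set_option autoImplicit false

open Set Module

namespace Pool.Agent.H165.TW

open Pool.Agent.H332.HT (V2 V3)

/-- a compact convex set `F` of a space of dimension at most `n` contains a point `p` with
`p - (1/n) (y - p) ∈ F` for all `y ∈ F` -/
theorem minkowski {E : Type*} [NormedAddCommGroup E] [NormedSpace ℝ E] [FiniteDimensional ℝ E]
    {n : ℕ} (hn : 1 ≤ n) (hfin : finrank ℝ E ≤ n) {F : Set E} (hc : IsCompact F)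
    (hcv : Convex ℝ F) (hne : F.Nonempty) :
    ∃ p ∈ F, ∀ y ∈ F, p - (1 / (n : ℝ)) • (y - p) ∈ F := by
  have hn0 : (0 : ℝ) < n := by exact_mod_cast hn
  have hn1 : (0 : ℝ) < (n : ℝ) + 1 := by linarith
  have : Nonempty F := hne.to_subtype
  let G : F → Set E := fun y => (fun z => ((n : ℝ) / (n + 1)) • z + (1 / ((n : ℝ) + 1)) • (y : E)) '' F
  have hG : (⋂ y, G y).Nonempty := by
    refine Convex.helly_theorem_compact' (𝕜 := ℝ) ?_ ?_ ?_
    · rintro y _ ⟨z₁, h₁, rfl⟩ _ ⟨z₂, h₂, rfl⟩ s t hs ht hst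
      refine ⟨s • z₁ + t • z₂, hcv h₁ h₂ hs ht hst, ?_⟩
      obtain rfl : t = 1 - s := by linarith
      simp only
      module
    · intro y
      exact hc.image (by fun_prop)
    · intro I hI
      rcases I.eq_empty_or_nonempty with rfl | hIne
      · simp
      have hcard : I.card ≤ n + 1 := hI.trans (by omega)
      obtain ⟨i₀, hi₀⟩ := hIne
      have : Nonempty I := ⟨⟨i₀, hi₀⟩⟩
      have hle : Fintype.card I ≤ Fintype.card (Fin (n + 1)) := by
        rw [Fintype.card_coe, Fintype.card_fin]; exact hcard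
      obtain ⟨e⟩ : Nonempty (I ↪ Fin (n + 1)) := Function.Embedding.nonempty_of_card_le hle
      obtain ⟨x, hx⟩ : ∃ x : Fin (n + 1) → I, Function.Surjective x :=
        ⟨Function.invFun e, Function.invFun_surjective e.injective⟩
      let X : Fin (n + 1) → E := fun i => ((x i : F) : E)
      have hX : ∀ i, X i ∈ F := fun i => (x i : F).2
      refine ⟨(1 / ((n : ℝ) + 1)) • ∑ i, X i, ?_⟩
      rw [mem_iInter₂]
      intro y hy
      obtain ⟨j, hj⟩ := hx ⟨y, hy⟩
      have hjX : X j = (y : E) := by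
        show (((x j : I) : F) : E) = y
        rw [hj]
      refine ⟨∑ i ∈ Finset.univ.erase j, (1 / (n : ℝ)) • X i, ?_, ?_⟩
      · refine hcv.sum_mem (fun _ _ => by positivity) ?_ (fun i _ => hX i)
        rw [Finset.sum_const, Finset.card_erase_of_mem (Finset.mem_univ _), Finset.card_univ,
          Fintype.card_fin, Nat.add_sub_cancel, nsmul_eq_mul]
        field_simp
      · simp only
        rw [← Finset.smul_sum, smul_smul, ← hjX]
        rw [show (n : ℝ) / (n + 1) * (1 / n) = 1 / ((n : ℝ) + 1) by field_simp]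
        rw [← smul_add, Finset.sum_erase_add _ _ (Finset.mem_univ j)]
  obtain ⟨p, hp⟩ := hG
  rw [mem_iInter] at hp
  have key : ∀ y ∈ F, p - (1 / (n : ℝ)) • (y - p) ∈ F := by
    intro y hy
    obtain ⟨z, hz, hzp⟩ := hp ⟨y, hy⟩
    simp only at hzp
    have : p - (1 / (n : ℝ)) • (y - p) = z := by
      have e1 : p - (1 / (n : ℝ)) • (y - p) = ((n + 1 : ℝ) / n) • p - (1 / (n : ℝ)) • y := by
        rw [smul_sub, show ((n + 1 : ℝ) / n) = 1 + 1 / n by field_simp, add_smul, one_smul]
        abel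
      rw [e1, ← hzp, smul_add, smul_smul, smul_smul]
      rw [show ((n + 1 : ℝ) / n) * (n / (n + 1)) = 1 by field_simp,
        show ((n + 1 : ℝ) / n) * (1 / (n + 1)) = 1 / n by field_simp, one_smul]
      abel
    rw [this]; exact hz
  refine ⟨p, ?_, key⟩
  obtain ⟨y, hy⟩ := hne
  obtain ⟨z, hz, hzp⟩ := hp ⟨y, hy⟩
  rw [← hzp]
  exact hcv hz hy (by positivity) (by positivity) (by field_simp)

theorem min3 : Pool.Agent.H221.TW.S_min3 := by
  intro K hK hKc hne
  have h3 : finrank ℝ V3 = 3 := by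
    simp [V3, V2, Module.finrank_prod]
  have := minkowski (n := 3) (by norm_num) h3.le hK hKc hne
  simpa using this

theorem plc : Pool.Agent.H221.TW.S_plc := by
  intro F hF hFc hne f hf c hfc
  obtain ⟨y₀, hy₀⟩ := hne
  let W : Submodule ℝ V3 := LinearMap.ker f
  have h3 : finrank ℝ V3 = 3 := by
    simp [V3, V2, Module.finrank_prod]
  have hW : finrank ℝ W ≤ 2 := by
    have h1 := LinearMap.finrank_range_add_finrank_ker f
    rw [h3] at h1
    have h2 : finrank ℝ (LinearMap.range f) ≠ 0 := by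
      intro h0
      rw [Submodule.finrank_eq_zero, LinearMap.range_eq_bot] at h0
      exact hf h0
    show finrank ℝ (LinearMap.ker f) ≤ 2
    omega
  let φ : W → V3 := fun v => y₀ + (v : V3)
  have hφc : Continuous φ := by fun_prop
  have hφe : Topology.IsClosedEmbedding φ := by
    refine (Homeomorph.addLeft y₀).isClosedEmbedding.comp ?_
    exact (Submodule.closed_of_finiteDimensional W).isClosedEmbedding_subtypeVal
  have hcomp : IsCompact (φ ⁻¹' F) := hφe.isCompact_preimage hF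
  have hconv : Convex ℝ (φ ⁻¹' F) := by
    intro u hu v hv s t hs ht hst
    show y₀ + ((s • u + t • v : W) : V3) ∈ F
    have : y₀ + ((s • u + t • v : W) : V3) = s • (y₀ + (u : V3)) + t • (y₀ + (v : V3)) := by
      rw [smul_add, smul_add]
      have : y₀ = s • y₀ + t • y₀ := by rw [← add_smul, hst, one_smul]
      conv_lhs => rw [this]
      push_cast
      abel
    rw [this]
    exact hFc hu hv hs ht hst
  have hne' : (φ ⁻¹' F).Nonempty := ⟨0, by show y₀ + ((0 : W) : V3) ∈ F; simpa using hy₀⟩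
  obtain ⟨p, hp, hpF⟩ := minkowski (n := 2) (by norm_num) hW hcomp hconv hne'
  refine ⟨φ p, hp, fun y hy => ?_⟩
  have hmem : y - y₀ ∈ W := by
    show f (y - y₀) = 0
    rw [map_sub, hfc y hy, hfc y₀ hy₀, sub_self]
  have := hpF ⟨y - y₀, hmem⟩ (by
    show y₀ + (y - y₀) ∈ F
    rwa [add_sub_cancel])
  have h4 : y₀ + ((p - (1 / ((2 : ℕ) : ℝ)) • ((⟨y - y₀, hmem⟩ : W) - p) : W) : V3) ∈ F := this
  have e : y₀ + ((p - (1 / ((2 : ℕ) : ℝ)) • ((⟨y - y₀, hmem⟩ : W) - p) : W) : V3) =
      φ p - (1 / (2 : ℝ)) • (y - φ p) := by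
    show y₀ + ((p - (1 / ((2 : ℕ) : ℝ)) • ((⟨y - y₀, hmem⟩ : W) - p) : W) : V3) =
      (y₀ + (p : V3)) - (1 / (2 : ℝ)) • (y - (y₀ + (p : V3)))
    push_cast
    rw [sub_sub]
    abel
  rw [← e]; exact h4

end Pool.Agent.H165.TW
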