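import Pool.Agent.H221.TW.Cen

/-!
An optimal centre exists and is an interior point.
-/

set_option autoImplicit false

open Set

namespace Pool.Agent.H165.TW

open Pool.Agent.H332.HT (V2 V3)

theorem opt : Pool.Agent.H221.TW.S_opt := by
  intro hmin K hK hKc hKi
  obtain ⟨S, hS⟩ : ∃ S : Set (V3 × ℝ), S = (K ×ˢ Icc (1 / 3 : ℝ) 1) ∩
    {p | ∀ y ∈ K, p.1 - p.2 • (y - p.1) ∈ K} := ⟨_, rfl⟩
  have hScomp : IsCompact S := by
    rw [hS]
    refine (hK.prod isCompact_Icc).inter_right ?_
    have e : {p : V3 × ℝ | ∀ y ∈ K, p.1 - p.2 • (y - p.1) ∈ K} =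
        ⋂ y ∈ K, (fun p : V3 × ℝ => p.1 - p.2 • (y - p.1)) ⁻¹' K := by
      ext p; simp
    rw [e]
    exact isClosed_biInter fun y _ => hK.isClosed.preimage (by fun_prop)
  obtain ⟨x₀, hx₀⟩ := hKi
  have hx₀K := interior_subset hx₀
  obtain ⟨p, hp, hpK⟩ := hmin K hK hKc ⟨x₀, hx₀K⟩
  have hSne : S.Nonempty := by
    refine ⟨(p, 1 / 3), ?_⟩
    rw [hS]
    exact ⟨⟨hp, by constructor <;> norm_num⟩, hpK⟩
  obtain ⟨⟨o, μ⟩, hoS, hmax⟩ := hScomp.exists_isMaxOn hSne continuous_snd.continuousOn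
  have hoS' := hoS
  rw [hS] at hoS'
  obtain ⟨⟨hoK, hμ1, hμ2⟩, ho⟩ := hoS'
  simp only at hoK hμ1 hμ2 ho
  have hμ0 : 0 < μ := by linarith
  have hinv : 1 / (1 / μ) = μ := one_div_one_div μ
  refine ⟨o, 1 / μ, ?_, ?_, ?_, ?_, ?_⟩
  · have hw := ho x₀ hx₀K
    have h1 : 0 < 1 + μ := by linarith
    have := hKc.combo_interior_self_mem_interior hx₀ hw (a := μ / (1 + μ)) (b := 1 / (1 + μ))
      (by positivity) (by positivity) (by field_simp; ring)
    have e : (μ / (1 + μ)) • x₀ + (1 / (1 + μ)) • (o - μ • (x₀ - o)) = o := by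
      have h2 : μ / (1 + μ) = 1 - 1 / (1 + μ) := by field_simp; ring
      have h3 : (1 / (1 + μ)) * μ = 1 - 1 / (1 + μ) := by field_simp; ring
      rw [smul_sub, smul_sub, smul_sub, smul_smul, smul_smul, h3, h2]
      module
    rwa [e] at this
  · rw [le_div_iff₀ hμ0]; linarith
  · rw [div_le_iff₀ hμ0]; linarith
  · intro y hy
    rw [hinv]
    exact ho y hy
  · intro o' lam' h1 hc
    have hl : 0 < lam' := by linarith
    have hle : 1 / lam' ≤ μ := by
      rcases lt_or_ge (1 / lam') (1 / 3) with h | h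
      · linarith
      · have hm : (o', 1 / lam') ∈ S := by
          rw [hS]
          refine ⟨⟨?_, h, ?_⟩, hc⟩
          · have hw := hc x₀ hx₀K
            have := hKc hw hx₀K (a := lam' / (lam' + 1)) (b := 1 / (lam' + 1))
              (by positivity) (by positivity) (by field_simp)
            have e : (lam' / (lam' + 1)) • (o' - (1 / lam') • (x₀ - o')) +
                (1 / (lam' + 1)) • x₀ = o' := by
              have h2 : lam' / (lam' + 1) = 1 - 1 / (lam' + 1) := by field_simp; ring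
              have h3 : (lam' / (lam' + 1)) * (1 / lam') = 1 / (lam' + 1) := by field_simp
              rw [smul_sub, smul_sub, smul_sub, smul_smul, smul_smul, h3, h2]
              module
            rwa [e] at this
          · show 1 / lam' ≤ 1
            rw [div_le_one hl]; exact h1
        exact hmax hm
    rw [div_le_iff₀ hμ0]
    rw [div_le_iff₀ hl] at hle
    linarith

end Pool.Agent.H165.TW
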