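import Pool.Agent.H221.TW.Stm
import Pool.Agent.H165.HW.PairMain

set_option autoImplicit false

namespace Pool.Agent.H165.TW

open Pool.Agent.H332.HT (V2 V3 det P IP T C Full Good Bi)
open Pool.Agent.H165.HW (GB Par)

/-- PAIR -/
theorem pair : Pool.Agent.H221.TW.S_pair := fun K hK q hq a b c d h1 h2 h3 h4 h5 h6 h7 h8 =>
  Pool.Agent.H165.HW.pair _ K hK q hq a b c d h1 h2 h3 h4 h5 h6 h7 h8

end Pool.Agent.H165.TW
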